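import Pool.Agent.Helper80.AD.GoalsB
import Pool.Agent.Helper80.AD.Le

/-!
# MP_6af536_nt, packet AD TINE: the local inequalities for the orbit in the torus
-/

set_option autoImplicit false

open MvPolynomial Filter Topology

noncomputable section

namespace Pool.Agent.Helper55.AD

open Pool.Agent.Helper80.HD
open Pool.Agent.Helper80.AD

/-- the rows `inr` of the powers of `bl A` -/
theorem bl_pow_inr {N : ℕ} (A : Matrix (Fin (N + 1)) (Fin (N + 1)) ℤ) (n : ℕ) (j : Fin (N + 1))
    (s : Fin (N + 1) ⊕ Fin (N + 1)) : (bl A ^ n) (Sum.inr j) s = if s = Sum.inr j then 1 else 0 := by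
  induction n with
  | zero =>
    rw [pow_zero, Matrix.one_apply]
    by_cases h : s = Sum.inr j
    · rw [if_pos h, if_pos h.symm]
    · rw [if_neg h, if_neg fun e => h e.symm]
  | succ n ih =>
    rw [pow_succ', Matrix.mul_apply, Fintype.sum_sum_type]
    have h1 : ∀ i : Fin (N + 1), bl A (Sum.inr j) (Sum.inl i) = 0 := fun i => rfl
    have h2 : ∀ i : Fin (N + 1), bl A (Sum.inr j) (Sum.inr i) = (1 : Matrix _ _ ℤ) j i := fun i => rfl
    simp only [h1, h2, zero_mul, Finset.sum_const_zero, zero_add]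
    rw [Finset.sum_eq_single j]
    · rw [Matrix.one_apply_eq, one_mul, ih]
    · intro i _ hi
      rw [Matrix.one_apply_ne fun e => hi e.symm, zero_mul]
    · intro h
      exact absurd (Finset.mem_univ j) h

/-- the logarithm of a character -/
theorem log_chr {F σ : Type} [Field F] [Fintype σ] (v : AbsoluteValue F ℝ) (ξ : σ → F) (hξ : ∀ s, ξ s ≠ 0)
    (w : σ → ℤ) : Real.log (v (chr ξ w)) = ∑ s, (w s : ℝ) * Real.log (v (ξ s)) := by
  unfold chr
  rw [map_prod, Real.log_prod]
  · refine Finset.sum_congr rfl fun s _ => ?_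
    rw [map_zpow₀, Real.log_zpow]
  · intro s _
    rw [map_zpow₀]
    exact zpow_ne_zero _ ((v.pos (hξ s)).ne')

section
variable {R : Type} [Field R] {N : ℕ}

theorem le_vn (v : AbsoluteValue R ℝ) (x : Fin (N + 1) → R) (j : Fin (N + 1)) : v (x j) ≤ vn v x :=
  le_ciSup (f := fun j => v (x j)) (Set.finite_range _).bddAbove j

theorem exists_vn (v : AbsoluteValue R ℝ) (x : Fin (N + 1) → R) : ∃ j, v (x j) = vn v x :=
  exists_eq_ciSup_of_finite (f := fun j => v (x j))

end

theorem tine1 (K : Type) [Field K] [NumberField K] [Algebra K ℂ] (F : IntermediateField K ℂ) (N : ℕ)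
    (A : Matrix (Fin (N + 1)) (Fin (N + 1)) ℤ) (c : Fin (N + 1) → K) (Γ : AbsoluteValue K ℝ → ℝ) (Γ' : ℝ)
    (X : ℕ → BV F (N + 1)) (hc : ∀ j, c j ≠ 0)
    (hcst : ∀ (v : Place F) (j : Fin (N + 1)), |Real.log (v.1 (algebraMap K F (c j)))| ≤ cst F Γ Γ' v)
    (h0 : ∀ n, (X n).1 0 = 1) (hX : ∀ n j, (X n).1 j ≠ 0)
    (hch : ∀ n i, (X n).1 (Fin.succ i) = chr (tor (X 0) c) ((bl A ^ n) (Sum.inl i))) (n : ℕ) :
      Le' (Pr F) (fun v => ∑ s', |∑ s'', ((bl A ^ n) s' s'' : ℝ) * LL (tor (X 0) c) v s''|)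
        (fun v => (2 * (N + 1) : ℕ) * (hV F (X n) v + cst F Γ Γ' v)) ∧
      ∀ v : Place F, hV F (X n) v ≤ ∑ s', |∑ s'', ((bl A ^ n) s' s'' : ℝ) * LL (tor (X 0) c) v s''| := by
  have htor : ∀ s, tor (X 0) c s ≠ 0 := by
    rintro (j | j)
    · exact hX 0 j.succ
    · exact (map_ne_zero (algebraMap K F)).2 (hc j)
  have key : ∀ v : Place F, ∑ s', |∑ s'', ((bl A ^ n) s' s'' : ℝ) * LL (tor (X 0) c) v s''| =
      (∑ i : Fin (N + 1), |Real.log (v.1 ((X n).1 (Fin.succ i)))|) +
        ∑ j : Fin (N + 1), |Real.log (v.1 (algebraMap K F (c j)))| := by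
    intro v
    rw [Fintype.sum_sum_type]
    congr 1
    · refine Finset.sum_congr rfl fun i _ => ?_
      rw [hch n i, log_chr v.1 _ htor]
      rfl
    · refine Finset.sum_congr rfl fun j _ => ?_
      rw [Finset.sum_eq_single (Sum.inr j)]
      · rw [bl_pow_inr, if_pos rfl, Int.cast_one, one_mul]
        rfl
      · intro s _ hs
        rw [bl_pow_inr, if_neg hs, Int.cast_zero, zero_mul]
      · intro h
        exact absurd (Finset.mem_univ _) h
  have hVge : ∀ (v : Place F) (j : Fin (N + 1 + 1)), Real.log (v.1 ((X n).1 j)) ≤ hV F (X n) v := by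
    intro v j
    exact Real.log_le_log (v.1.pos (hX n j)) (le_vn v.1 (X n).1 j)
  have hV0 : ∀ v : Place F, 0 ≤ hV F (X n) v := by
    intro v
    have h1 := hVge v 0
    rw [h0 n, map_one, Real.log_one] at h1
    exact h1
  have hcst0 : ∀ v : Place F, 0 ≤ cst F Γ Γ' v := fun v => (abs_nonneg _).trans (hcst v 0)
  refine ⟨?_, ?_⟩
  · refine Le'.of_add (p := fun v => ∑ i : Fin (N + 1), Real.log (v.1 ((X n).1 (Fin.succ i)))) ?_ ?_
    · refine ⟨∏ i : Fin (N + 1), (X n).1 (Fin.succ i), Finset.prod_ne_zero_iff.2 fun i _ => hX n _, ?_⟩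
      intro v
      rw [map_prod, Real.log_prod]
      intro i _
      exact (v.1.pos (hX n _)).ne'
    · intro v
      rw [key v]
      have h1 : (∑ i : Fin (N + 1), |Real.log (v.1 ((X n).1 (Fin.succ i)))|) +
          ∑ i : Fin (N + 1), Real.log (v.1 ((X n).1 (Fin.succ i))) ≤
          ∑ _i : Fin (N + 1), 2 * hV F (X n) v := by
        rw [← Finset.sum_add_distrib]
        refine Finset.sum_le_sum fun i _ => ?_
        have h2 := hVge v (Fin.succ i)
        have h3 := hV0 v
        rcases abs_cases (Real.log (v.1 ((X n).1 (Fin.succ i)))) with ⟨h, _⟩ | ⟨h, _⟩ <;> rw [h] <;> linarith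
      have h2 : ∑ j : Fin (N + 1), |Real.log (v.1 (algebraMap K F (c j)))| ≤
          ∑ _j : Fin (N + 1), cst F Γ Γ' v := Finset.sum_le_sum fun j _ => hcst v j
      rw [Finset.sum_const, Finset.card_univ, Fintype.card_fin, nsmul_eq_mul] at h1 h2
      have h3 := hcst0 v
      push_cast at h1 h2 ⊢
      nlinarith [mul_nonneg (show (0 : ℝ) ≤ (N : ℝ) + 1 by positivity) h3]
  · intro v
    rw [key v]
    have hn1 : 0 ≤ ∑ j : Fin (N + 1), |Real.log (v.1 (algebraMap K F (c j)))| :=
      Finset.sum_nonneg fun j _ => abs_nonneg _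
    have hn2 : 0 ≤ ∑ i : Fin (N + 1), |Real.log (v.1 ((X n).1 (Fin.succ i)))| :=
      Finset.sum_nonneg fun j _ => abs_nonneg _
    obtain ⟨j, hj⟩ := exists_vn v.1 (X n).1
    have e : hV F (X n) v = Real.log (v.1 ((X n).1 j)) := by
      unfold hV
      rw [hj]
    rw [e]
    refine Fin.cases ?_ (fun i => ?_) j
    · rw [h0 n, map_one, Real.log_one]
      linarith
    · have h1 : |Real.log (v.1 ((X n).1 (Fin.succ i)))| ≤
          ∑ i : Fin (N + 1), |Real.log (v.1 ((X n).1 (Fin.succ i)))| :=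
        Finset.single_le_sum (f := fun i : Fin (N + 1) => |Real.log (v.1 ((X n).1 (Fin.succ i)))|)
        (fun i _ => abs_nonneg _) (Finset.mem_univ i)
      have h2 := le_abs_self (Real.log (v.1 ((X n).1 (Fin.succ i))))
      linarith

theorem tine2 (K : Type) [Field K] [NumberField K] (r : ℕ) (c : Fin r → K) (hc : ∀ j, c j ≠ 0) :
    ∃ (Γ : AbsoluteValue K ℝ → ℝ) (Γ' : ℝ), GoodGam K Γ ∧ 1 ≤ Γ' ∧
      ∀ [Algebra K ℂ] (F : IntermediateField K ℂ) (v : Place F) (j : Fin r),
        |Real.log (v.1 (algebraMap K F (c j)))| ≤ cst F Γ Γ' v := by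
  classical
  set T : Finset K := insert 1 (Finset.univ.image c ∪ Finset.univ.image fun j => (c j)⁻¹) with hT
  have hT1 : (1 : K) ∈ T := Finset.mem_insert_self _ _
  have hTne : T.Nonempty := ⟨1, hT1⟩
  have hT0 : ∀ a ∈ T, a ≠ 0 := by
    intro a ha
    rw [hT, Finset.mem_insert, Finset.mem_union, Finset.mem_image, Finset.mem_image] at ha
    rcases ha with rfl | ⟨j, _, rfl⟩ | ⟨j, _, rfl⟩
    · exact one_ne_zero
    · exact hc j
    · exact inv_ne_zero (hc j)
  have hTc : ∀ j, c j ∈ T := fun j => Finset.mem_insert_of_mem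
    (Finset.mem_union_left _ (Finset.mem_image_of_mem _ (Finset.mem_univ j)))
  have hTi : ∀ j, (c j)⁻¹ ∈ T := fun j => Finset.mem_insert_of_mem
    (Finset.mem_union_right _ (Finset.mem_image_of_mem (fun j => (c j)⁻¹) (Finset.mem_univ j)))
  have hle : ∀ (v : AbsoluteValue K ℝ) (a : K), a ∈ T → v a ≤ T.sup' hTne (fun a => v a) :=
    fun v a ha => Finset.le_sup' (fun a => v a) ha
  have hone : ∀ v : AbsoluteValue K ℝ, (∀ a ∈ T, v a = 1) → T.sup' hTne (fun a => v a) = 1 := by
    intro v hv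
    apply le_antisymm
    · exact Finset.sup'_le _ _ fun a ha => (hv a ha).le
    · exact (hv 1 hT1).symm.le.trans (hle v 1 hT1)
  refine ⟨fun v => T.sup' hTne (fun a => v a),
    1 + ∑ τ : K →+* ℂ, ∑ j, |Real.log ‖τ (c j)‖|, ⟨?_, ?_, ?_⟩, ?_, ?_⟩
  · intro v
    have := hle v 1 hT1
    rwa [map_one] at this
  · intro v hv
    exact hone v fun a ha => hv a (hT0 a ha)
  · have hfin : ∀ a ∈ T, {v : AbsoluteValue K ℝ |
        v ∈ Height.AdmissibleAbsValues.nonarchAbsVal (K := K) ∧ v a ≠ 1}.Finite := by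
      intro a ha
      have h1 := Height.AdmissibleAbsValues.hasFiniteMulSupport (hT0 a ha)
      have h2 : (Function.mulSupport
        (fun v : Height.AdmissibleAbsValues.nonarchAbsVal (K := K) ↦ v.val a)).Finite := h1
      refine (h2.image Subtype.val).subset ?_
      rintro v ⟨hv1, hv2⟩
      exact ⟨⟨v, hv1⟩, hv2, rfl⟩
    refine (T.finite_toSet.biUnion hfin).subset ?_
    rintro v ⟨hv1, hv2⟩
    rw [Set.mem_iUnion₂]
    by_contra hcon
    push Not at hcon
    apply hv2
    apply hone v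
    intro a ha
    by_contra hne
    exact hcon a ha ⟨hv1, hne⟩
  · have : 0 ≤ ∑ τ : K →+* ℂ, ∑ j, |Real.log ‖τ (c j)‖| := by positivity
    linarith
  · intro _ F v j
    unfold cst
    split_ifs with hna
    · set v' : AbsoluteValue K ℝ := v.1.comp (algebraMap K F).injective with hv'
      have hpos : 0 < v' (c j) := v'.pos (hc j)
      have e : v.1 (algebraMap K F (c j)) = v' (c j) := rfl
      rw [e, abs_le]
      constructor
      · have h1 := hle v' _ (hTi j)
        have h2 := Real.log_le_log (v'.pos (inv_ne_zero (hc j))) h1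
        rw [map_inv₀, Real.log_inv] at h2
        linarith
      · exact Real.log_le_log hpos (hle v' _ (hTc j))
    · obtain h | ⟨ι, hι⟩ := v.2
      · exact absurd h hna
      · rw [hι]
        have h1 := Finset.single_le_sum (f := fun j => |Real.log ‖(ι.comp (algebraMap K F)) (c j)‖|)
          (fun i _ => abs_nonneg _) (Finset.mem_univ j)
        have h2 := Finset.single_le_sum (f := fun τ : K →+* ℂ => ∑ j, |Real.log ‖τ (c j)‖|)
          (fun τ _ => Finset.sum_nonneg fun i _ => abs_nonneg _) (Finset.mem_univ (ι.comp (algebraMap K F)))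
        simp only [RingHom.comp_apply] at h1 h2
        linarith

theorem tine : S_TINE :=
  ⟨fun K _ _ _ F N A c Γ Γ' X _ _ hc hcst h0 hX hch n => tine1 K F N A c Γ Γ' X hc hcst h0 hX hch n,
    fun K _ _ r c hc => tine2 K r c hc⟩

end Pool.Agent.Helper55.AD
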